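import Pool.Agent.Helper83.ConfDim.Defs
import Pool.Agent.Helper83.ConfDim.Main3

open MeasureTheory ProbabilityTheory Filter
open scoped ENNReal NNReal Topology
open Pool.Agent.Helper83.ConfDim

/-- For every `n ≥ 60`, almost surely the trace `B([0,1])` of Brownian motion in `ℝ^n` has
conformal dimension exactly `1`, which is smaller than its Hausdorff dimension. -/
theorem Pool.Agent.Results.MP_d65fed_pr.ConfDimOne.result.{u} :
    ∀ n : ℕ, 60 ≤ n →
      (∃ (Ω : Type) (_ : MeasurableSpace Ω) (P : Measure Ω)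
        (B : ℝ≥0 → Ω → EuclideanSpace ℝ (Fin n)),
        IsProbabilityMeasure P ∧ IsBrownian n P B) ∧
      ∀ (Ω : Type u) [MeasurableSpace Ω] (P : Measure Ω) [IsProbabilityMeasure P]
        (B : ℝ≥0 → Ω → EuclideanSpace ℝ (Fin n)), IsBrownian n P B →
        ∀ᵐ ω ∂P, confDim (trace B ω) = 1 ∧ confDim (trace B ω) < dimH (trace B ω) := by
  intro n hn
  refine ⟨Pool.Agent.Helper59.BM.exists_brownian n, ?_⟩
  intro Ω _ P _ B hB
  exact conf_eq_one hB hn
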